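import Pool.Agent.Y725.CL.Stm

/-!
Project CL (helper725): the Chernoff bound as a count over `ZMod 2`.
-/

set_option autoImplicit false

open Finset

namespace Pool.Agent.Y248.CL

open Pool.Agent.Y725.CL

/-- the sign of a vector -/
noncomputable def sg {k : ℕ} (b : Fin k → ZMod 2) (v : Fin k → ZMod 2) : ℝ :=
  if ∑ j, b j * v j = 1 then 1 else -1

theorem zmod2 (x : ZMod 2) : x = 0 ∨ x = 1 := by
  revert x
  decide

theorem sg_neg {k : ℕ} (b : Fin k → ZMod 2) (hb : b ≠ 0) :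
    ∃ e : Fin k → ZMod 2, ∀ v, sg b (v + e) = - sg b v := by
  obtain ⟨j0, hj0⟩ : ∃ j, b j ≠ 0 := by
    by_contra h
    push Not at h
    exact hb (funext h)
  have hj : b j0 = 1 := (zmod2 _).resolve_left hj0
  refine ⟨Pi.single j0 1, fun v => ?_⟩
  have h : ∑ j, b j * (v + (Pi.single j0 1 : Fin k → ZMod 2)) j = (∑ j, b j * v j) + 1 := by
    simp only [Pi.add_apply, mul_add, Finset.sum_add_distrib]
    congr 1
    rw [Finset.sum_eq_single j0]
    · simp [hj]
    · intro i _ hi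
      simp [hi]
    · simp
  unfold sg
  rw [h]
  rcases zmod2 (∑ j, b j * v j) with h0 | h0
  · rw [h0]
    simp
  · rw [h0]
    have h11 : (1 : ZMod 2) + 1 = 0 := by decide
    rw [h11]
    simp

theorem sum_exp {k : ℕ} (b : Fin k → ZMod 2) (hb : b ≠ 0) (l : ℝ) :
    ∑ v, Real.exp (l * sg b v) = 2 ^ k * Real.cosh l := by
  obtain ⟨e, he⟩ := sg_neg b hb
  have h1 : ∑ v, Real.exp (l * sg b v) = ∑ v, Real.exp (-(l * sg b v)) := by
    rw [← Equiv.sum_comp (Equiv.addRight e)]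
    refine Finset.sum_congr rfl fun v _ => ?_
    rw [Equiv.coe_addRight, he, mul_neg]
  have h2 : ∀ v, Real.exp (l * sg b v) + Real.exp (-(l * sg b v)) = 2 * Real.cosh l := by
    intro v
    have : sg b v = 1 ∨ sg b v = -1 := by
      unfold sg
      split_ifs <;> simp
    rcases this with h | h
    · rw [h, Real.cosh_eq, mul_one]
      ring
    · rw [h, Real.cosh_eq, mul_neg, mul_one, neg_neg]
      ring
  have h3 : 2 * ∑ v, Real.exp (l * sg b v) = 2 ^ k * (2 * Real.cosh l) := by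
    have h4 : 2 * ∑ v, Real.exp (l * sg b v)
        = ∑ v, (Real.exp (l * sg b v) + Real.exp (-(l * sg b v))) := by
      rw [Finset.sum_add_distrib, ← h1]
      ring
    rw [h4]
    simp only [h2, Finset.sum_const, Finset.card_univ, nsmul_eq_mul]
    rw [Fintype.card_fun, ZMod.card, Fintype.card_fin]
    push_cast
    ring
  linarith

theorem sum_sg {k p : ℕ} (b : Fin k → ZMod 2) (a : Fin p → Fin k → ZMod 2) :
    ∑ i, sg b (a i) = 2 * ((#{i : Fin p | ∑ j, b j * a i j = 1} : ℕ) : ℝ) - p := by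
  have h : ∀ i, sg b (a i) = 2 * (if ∑ j, b j * a i j = 1 then (1 : ℝ) else 0) - 1 := by
    intro i
    unfold sg
    split_ifs <;> norm_num
  simp only [h]
  rw [Finset.sum_sub_distrib, ← Finset.mul_sum, Finset.sum_boole]
  simp

theorem t_CHE : P_CHE := by
  intro k p b t hp hb ht
  classical
  have hp' : (0 : ℝ) < p := by exact_mod_cast hp
  set l : ℝ := 2 * t / p with hl
  have hl0 : 0 ≤ l := by positivity
  set S : Finset (Fin p → Fin k → ZMod 2) := {a : Fin p → Fin k → ZMod 2 | (p : ℝ) / 2 + t ≤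
      ((#{i : Fin p | ∑ j, b j * a i j = 1} : ℕ) : ℝ)} with hS
  have hone : ∀ a ∈ S, 1 ≤ Real.exp (l * ∑ i, sg b (a i)) * Real.exp (-(2 * l * t)) := by
    intro a ha
    rw [hS, Finset.mem_filter] at ha
    rw [← Real.exp_add, sum_sg, ← Real.exp_zero]
    apply Real.exp_le_exp.2
    nlinarith [ha.2]
  have hcount : ((#S : ℕ) : ℝ) ≤ (∑ a : Fin p → Fin k → ZMod 2, Real.exp (l * ∑ i, sg b (a i)))
      * Real.exp (-(2 * l * t)) := by
    rw [Finset.sum_mul]
    calc ((#S : ℕ) : ℝ) = ∑ a ∈ S, (1 : ℝ) := by simp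
      _ ≤ ∑ a ∈ S, Real.exp (l * ∑ i, sg b (a i)) * Real.exp (-(2 * l * t)) :=
        Finset.sum_le_sum hone
      _ ≤ _ := Finset.sum_le_sum_of_subset_of_nonneg (Finset.subset_univ _)
        (fun a _ _ => by positivity)
  have hprod : ∑ a : Fin p → Fin k → ZMod 2, Real.exp (l * ∑ i, sg b (a i))
      = (2 ^ k * Real.cosh l) ^ p := by
    rw [← sum_exp b hb l, Fintype.sum_pow]
    refine Finset.sum_congr rfl fun a _ => ?_
    rw [Finset.mul_sum, Real.exp_sum]
  rw [hprod] at hcount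
  refine hcount.trans ?_
  have hcosh : Real.cosh l ≤ Real.exp (l ^ 2 / 2) := Real.cosh_le_exp_half_sq l
  have h5 : (2 ^ k * Real.cosh l) ^ p ≤ 2 ^ (k * p) * Real.exp (p * (l ^ 2 / 2)) := by
    rw [mul_pow, ← pow_mul, Real.exp_nat_mul]
    exact mul_le_mul_of_nonneg_left (pow_le_pow_left₀ (Real.cosh_pos _).le hcosh p) (by positivity)
  calc (2 ^ k * Real.cosh l) ^ p * Real.exp (-(2 * l * t))
      ≤ (2 ^ (k * p) * Real.exp (p * (l ^ 2 / 2))) * Real.exp (-(2 * l * t)) :=
        mul_le_mul_of_nonneg_right h5 (Real.exp_pos _).le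
    _ = 2 ^ (k * p) * Real.exp (-(2 * t ^ 2 / p)) := by
        rw [mul_assoc, ← Real.exp_add]
        congr 2
        rw [hl]
        field_simp
        ring

end Pool.Agent.Y248.CL
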